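import Mathlib
import Pool.Agent.E8helper16.TP.StmA

/-!
# Project TP, TP-4: the sieve in two variables
-/

set_option autoImplicit false

namespace Pool.Agent.E8helper30.TP

open Finset Pool.Agent.E8helper16.TP
open Pool.Agent.H373R2.T7

lemma bad_le (Q : ℕ → ℕ → ℕ → Prop) (p : ℕ) : bad Q p ≤ p ^ 2 := by
  classical
  unfold bad
  refine (card_filter_le _ _).trans ?_
  rw [card_product, card_range, sq]

set_option maxHeartbeats 1000000 in
/-- TP-4 -/
theorem t_SYS2 (hcnt : S_CNT2) : S_SYS2 := by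
  classical
  intro c E U k hc hk
  obtain ⟨N0, h0⟩ := choice c E (U + 1) 4
  obtain ⟨n1, h1⟩ := ev_log' U 6
  obtain ⟨n2, h2⟩ := ev_L' 2
  refine ⟨max (max N0 n1) (max n2 4), fun N hN z hz hzE n hn Q hQ => ?_⟩
  have b1 := le_trans (le_trans (le_max_left _ _) (le_max_left _ _)) hN
  have b2 := le_trans (le_trans (le_max_right _ _) (le_max_left _ _)) hN
  have b3 := le_trans (le_trans (le_max_left _ _) (le_max_right _ _)) hN
  have hN4 : 4 ≤ N := le_trans (le_trans (le_max_right _ _) (le_max_right _ _)) hN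
  obtain ⟨r, hr1, hr2, -⟩ := h0 N b1 z hzE
  have a1 := h1 N b2
  have hL := h2 N b3
  have hNr : (4 : ℝ) ≤ N := by exact_mod_cast hN4
  have hN0 : (0 : ℝ) < N := by linarith
  set L := Real.log N with hLd
  have hL0 : 0 < L := by linarith
  have hss : √(N : ℝ) * √(N : ℝ) = N := Real.mul_self_sqrt hN0.le
  have hs0 : 0 < √(N : ℝ) := Real.sqrt_pos.2 hN0
  have hz0 : (0 : ℝ) ≤ z := Nat.cast_nonneg _
  have hD1r : (1 : ℝ) ≤ ((z : ℝ) + 1) ^ r := one_le_pow₀ (by linarith)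
  have hDs : ((z : ℝ) + 1) ^ r * ((z : ℝ) + 1) ^ r ≤ √N := by
    have h5 : (((z : ℝ) + 1) ^ r * ((z : ℝ) + 1) ^ r) ^ 2 ≤ N := by
      refine le_trans (le_of_eq ?_) hr2
      ring
    have h6 := Real.sqrt_le_sqrt h5
    rwa [Real.sqrt_sq (by positivity)] at h6
  have hnN : (n : ℝ) ≤ N := by exact_mod_cast hn
  have hk1 : (1 : ℝ) ≤ k := by exact_mod_cast hk
  have hX0 : 0 ≤ (n : ℝ) ^ 2 / (2 * k) := by positivity
  have hX : (n : ℝ) ^ 2 / (2 * k) ≤ (N : ℝ) ^ 2 / 2 := by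
    apply div_le_div₀ (by positivity) (by gcongr) (by norm_num)
    linarith
  have key := sieve_gen' ((Icc 1 n ×ˢ Icc 1 n).filter (fun r : ℕ × ℕ => r.1 + k * r.2 ≤ n)) (fun _ => (1 : ℝ))
    (fun _ _ => zero_le_one) (fun p r => Q p r.1 r.2) (pz z)
    (fun p => (bad Q p : ℝ) / (p : ℝ) ^ 2) (fun p hp => by
      have hp0 : (0 : ℝ) < p := by exact_mod_cast (mem_pz.1 hp).2.pos
      constructor
      · positivity
      · rw [div_le_one (by positivity)]
        exact_mod_cast bad_le Q p) ((n : ℝ) ^ 2 / (2 * k)) hX0 (fun _ => 3 * (N : ℝ) * ((z : ℝ) + 1) ^ r) r (by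
      intro S hS hr
      have hSp : ∀ p ∈ S, p.Prime := fun p hp => (mem_pz.1 (hS hp)).2
      have h3 := hcnt Q S hSp k n hk
      have e1 : ∑ i ∈ ((Icc 1 n ×ˢ Icc 1 n).filter (fun r : ℕ × ℕ => r.1 + k * r.2 ≤ n)).filter
            (fun i => ∀ p ∈ S, Q p i.1 i.2), (1 : ℝ) =
          (((Icc 1 n ×ˢ Icc 1 n).filter
            (fun r : ℕ × ℕ => r.1 + k * r.2 ≤ n ∧ ∀ p ∈ S, Q p (r.1 % p) (r.2 % p))).card : ℝ) := by
        rw [sum_const, nsmul_eq_mul, mul_one, filter_filter]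
        congr 2
        apply filter_congr
        intro r _
        constructor
        · rintro ⟨h, h'⟩
          exact ⟨h, fun p hp => (hQ.per p _ _).1 (h' p hp)⟩
        · rintro ⟨h, h'⟩
          exact ⟨h, fun p hp => (hQ.per p _ _).2 (h' p hp)⟩
      rw [e1]
      refine h3.trans ?_
      have h4 : ((∏ p ∈ S, p : ℕ) : ℝ) ≤ ((z : ℝ) + 1) ^ r := by
        push_cast
        calc ∏ p ∈ S, (p : ℝ) ≤ ∏ _p ∈ S, ((z : ℝ) + 1) := by
              apply prod_le_prod (fun _ _ => Nat.cast_nonneg _)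
              intro p hp
              have : (p : ℝ) ≤ z := by exact_mod_cast (mem_pz.1 (hS hp)).1
              linarith
          _ = ((z : ℝ) + 1) ^ S.card := by rw [prod_const]
          _ ≤ ((z : ℝ) + 1) ^ r := pow_le_pow_right₀ (by linarith) hr
      calc 3 * (n : ℝ) * ((∏ p ∈ S, p : ℕ) : ℝ) ≤ 3 * (N : ℝ) * ((z : ℝ) + 1) ^ r := by
            apply mul_le_mul (by linarith) h4 (Nat.cast_nonneg _) (by positivity)
        _ = _ := rfl)
  have e0 : ∑ i ∈ ((Icc 1 n ×ˢ Icc 1 n).filter (fun r : ℕ × ℕ => r.1 + k * r.2 ≤ n)).filter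
        (fun i => ∀ p ∈ pz z, ¬ Q p i.1 i.2), (1 : ℝ) =
      (((Icc 1 n ×ˢ Icc 1 n).filter
        (fun r : ℕ × ℕ => r.1 + k * r.2 ≤ n ∧ ∀ p ∈ pz z, ¬ Q p r.1 r.2)).card : ℝ) := by
    rw [sum_const, nsmul_eq_mul, mul_one, filter_filter]
  rw [e0] at key
  refine key.trans ?_
  have e1 : ∑ j ∈ range (r + 1), ∑ _S ∈ (pz z).powersetCard j, 3 * (N : ℝ) * ((z : ℝ) + 1) ^ r =
      ((∑ j ∈ range (r + 1), ((pz z).powersetCard j).card : ℕ) : ℝ) * (3 * (N : ℝ) * ((z : ℝ) + 1) ^ r) := by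
    push_cast
    rw [sum_mul]
    apply sum_congr rfl
    intro j _
    rw [sum_const, nsmul_eq_mul]
  rw [e1]
  have h3 := card_small (pz z) r
  have h4 : (((pz z).card : ℝ) + 1) ^ r ≤ ((z : ℝ) + 1) ^ r := by
    have : ((pz z).card : ℝ) ≤ z := by exact_mod_cast card_pz_le z
    gcongr
  have h5 : es (fun p => (bad Q p : ℝ) / (p : ℝ) ^ 2) (pz z) r ≤ 1 / L ^ (U + 1) := by
    refine (es_le (fun p _ => by positivity) r).trans (le_trans ?_ hr1)
    apply Real.exp_le_exp.2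
    have h6 : ∑ p ∈ pz z, (bad Q p : ℝ) / (p : ℝ) ^ 2 ≤ c * (1 + Real.log z) := by
      have h7 : ∀ p ∈ pz z, (bad Q p : ℝ) / (p : ℝ) ^ 2 ≤ c * (1 / (p : ℝ)) := by
        intro p hp
        have hp0 : (0 : ℝ) < p := by exact_mod_cast (mem_pz.1 hp).2.pos
        have h8 : (bad Q p : ℝ) ≤ c * p := by exact_mod_cast hQ.few p (mem_pz.1 hp).2
        rw [div_le_iff₀ (by positivity)]
        calc (bad Q p : ℝ) ≤ c * p := h8
          _ = c * (1 / (p : ℝ)) * (p : ℝ) ^ 2 := by field_simp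
      refine (sum_le_sum h7).trans ?_
      rw [← mul_sum]
      exact mul_le_mul_of_nonneg_left (sum_pz_le z) (Nat.cast_nonneg _)
    linarith
  have hes0 : 0 ≤ es (fun p => (bad Q p : ℝ) / (p : ℝ) ^ 2) (pz z) r := by
    unfold es
    exact sum_nonneg fun S _ => prod_nonneg fun p _ => by positivity
  have hLU : 0 < L ^ U := by positivity
  have g1 : ((∑ j ∈ range (r + 1), ((pz z).powersetCard j).card : ℕ) : ℝ) * (3 * (N : ℝ) * ((z : ℝ) + 1) ^ r) ≤
      (1 / 2) * ((N : ℝ) ^ 2 / L ^ U) := by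
    have h6 : ((∑ j ∈ range (r + 1), ((pz z).powersetCard j).card : ℕ) : ℝ) * (3 * (N : ℝ) * ((z : ℝ) + 1) ^ r) ≤
        ((z : ℝ) + 1) ^ r * (3 * (N : ℝ) * ((z : ℝ) + 1) ^ r) :=
      mul_le_mul_of_nonneg_right (h3.trans h4) (by positivity)
    refine h6.trans ?_
    have h7 : ((z : ℝ) + 1) ^ r * (3 * (N : ℝ) * ((z : ℝ) + 1) ^ r) ≤ 3 * N * √N := by
      calc ((z : ℝ) + 1) ^ r * (3 * (N : ℝ) * ((z : ℝ) + 1) ^ r) =
            3 * N * (((z : ℝ) + 1) ^ r * ((z : ℝ) + 1) ^ r) := by ring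
        _ ≤ 3 * N * √N := mul_le_mul_of_nonneg_left hDs (by positivity)
    refine h7.trans ?_
    rw [← mul_div_assoc, le_div_iff₀ hLU]
    calc 3 * (N : ℝ) * √N * L ^ U = (1 / 2) * N * √N * (6 * L ^ U) := by ring
      _ ≤ (1 / 2) * N * √N * √N := mul_le_mul_of_nonneg_left a1 (by positivity)
      _ = (1 / 2) * N * (√N * √N) := by ring
      _ = 1 / 2 * (N : ℝ) ^ 2 := by rw [hss]; ring
  have g2 : 2 * ((n : ℝ) ^ 2 / (2 * k)) * es (fun p => (bad Q p : ℝ) / (p : ℝ) ^ 2) (pz z) r ≤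
      (1 / 2) * ((N : ℝ) ^ 2 / L ^ U) := by
    calc 2 * ((n : ℝ) ^ 2 / (2 * k)) * es (fun p => (bad Q p : ℝ) / (p : ℝ) ^ 2) (pz z) r ≤
          2 * ((N : ℝ) ^ 2 / 2) * (1 / L ^ (U + 1)) :=
          mul_le_mul (by linarith) h5 hes0 (by positivity)
      _ = ((N : ℝ) ^ 2 / L ^ U) * (1 / L) := by
          rw [pow_succ L U]; field_simp
      _ ≤ ((N : ℝ) ^ 2 / L ^ U) * (1 / 2) := by
          apply mul_le_mul_of_nonneg_left _ (by positivity)
          exact one_div_le_one_div_of_le (by norm_num) hL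
      _ = _ := by ring
  calc _ ≤ (1 / 2) * ((N : ℝ) ^ 2 / L ^ U) + (1 / 2) * ((N : ℝ) ^ 2 / L ^ U) := add_le_add g1 g2
    _ = _ := by ring

end Pool.Agent.E8helper30.TP
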